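import Mathlib

set_option autoImplicit false

/-!
# Tube occupancy: statements of the pieces (project TO, MP_e5cefd_an)
-/

namespace Pool.Agent.N822.TO

open MeasureTheory

/-- `ℝ ^ d` with its Euclidean norm. -/
abbrev E (d : ℕ) : Type := EuclideanSpace ℝ (Fin d)

/-- The tube of width `w` around the line through `p` with direction `v`. -/
def tube {d : ℕ} (p v : E d) (w : ℝ) : Set (E d) :=
  {x | Metric.infDist x (Set.range fun t : ℝ => p + t • v) ≤ w / 2}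

/-- A box tube around the line `x k = α k * x j + β k`. -/
def box {d : ℕ} (j : Fin d) (α β : Fin d → ℝ) (ρ : ℝ) : Set (E d) :=
  {x | ∀ k, k ≠ j → |x k - α k * x j - β k| ≤ ρ}

/-- **BOX**: a tube is contained in a box tube with slopes at most one. -/
def S_BOX : Prop := ∀ (d : ℕ) (p v : E d) (w : ℝ), v ≠ 0 →
  ∃ (j : Fin d) (α β : Fin d → ℝ), (∀ k, |α k| ≤ 1) ∧ tube p v w ⊆ box j α β w

/-- The point `(f i, i)` of `{0, …, m - 1} ^ (D + 1)`. -/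
def pt {D m : ℕ} (f : (Fin D → Fin m) → Fin m) (i : Fin D → Fin m) : Fin (D + 1) → ℝ :=
  Fin.cons ((f i : ℕ) : ℝ) (fun t => ((i t : ℕ) : ℝ))

/-- The number of the points `(f i, i)` in a box tube of half width `3`. -/
noncomputable def cnt {D m : ℕ} (f : (Fin D → Fin m) → Fin m) (j : Fin (D + 1))
    (α β : Fin (D + 1) → ℝ) : ℕ :=
  Nat.card {i : Fin D → Fin m // ∀ k, k ≠ j → |pt f i k - α k * pt f i j - β k| ≤ 3}

/-- **FL** (random functions): some function `f` has at most `A (log₂ m + 1)` points in every box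
tube of half width `3`. -/
def S_FL : Prop := ∀ D : ℕ, 1 ≤ D → ∃ A : ℕ, ∀ b : ℕ, ∃ f : (Fin D → Fin (2 ^ b)) → Fin (2 ^ b),
  ∀ (j : Fin (D + 1)) (α β : Fin (D + 1) → ℝ), (∀ k, |α k| ≤ 1) → cnt f j α β ≤ A * (b + 1)

/-- The product of the first `n` factors. -/
def q (m : ℕ → ℕ) (n : ℕ) : ℕ := ∏ k ∈ Finset.range n, m k

/-- The digit sequences of the Moran construction. -/
abbrev Dig (D : ℕ) (m : ℕ → ℕ) : Type := (k : ℕ) → Fin D → Fin (m k)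

/-- The point with the given digits. -/
noncomputable def phi {D : ℕ} {m : ℕ → ℕ} (f : (k : ℕ) → (Fin D → Fin (m k)) → Fin (m k))
    (a : Dig D m) : E (D + 1) :=
  WithLp.toLp 2 fun t => ∑' k, pt (f k) (a k) t / (q m (k + 1) : ℝ)

/-- The Moran set. -/
def Kset {D : ℕ} {m : ℕ → ℕ} (f : (k : ℕ) → (Fin D → Fin (m k)) → Fin (m k)) :
    Set (E (D + 1)) := Set.range (phi f)

/-- **POS** -/
def S_POS : Prop := ∀ (D : ℕ) (m : ℕ → ℕ) (f : (k : ℕ) → (Fin D → Fin (m k)) → Fin (m k)),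
  1 ≤ D → (∀ k, 2 ≤ m k) → IsCompact (Kset f) ∧ 0 < Measure.hausdorffMeasure (D : ℝ) (Kset f)

/-- The prefixes of length `n`. -/
abbrev Pre (D : ℕ) (m : ℕ → ℕ) (n : ℕ) : Type := (k : Fin n) → Fin D → Fin (m k)

/-- The corner of the cell of a prefix. -/
noncomputable def corner {D : ℕ} {m : ℕ → ℕ} (f : (k : ℕ) → (Fin D → Fin (m k)) → Fin (m k))
    {n : ℕ} (p : Pre D m n) (t : Fin (D + 1)) : ℝ :=
  ∑ k : Fin n, pt (f k) (p k) t / (q m (k + 1) : ℝ)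

/-- The cell of a prefix: a cube with side `1 / q n`. -/
def cell {D : ℕ} {m : ℕ → ℕ} (f : (k : ℕ) → (Fin D → Fin (m k)) → Fin (m k))
    {n : ℕ} (p : Pre D m n) : Set (E (D + 1)) :=
  {x | ∀ t, corner f p t ≤ x t ∧ x t ≤ corner f p t + 1 / (q m n : ℝ)}

/-- **HAUS** -/
def S_HAUS : Prop := ∀ (D : ℕ) (m : ℕ → ℕ) (f : (k : ℕ) → (Fin D → Fin (m k)) → Fin (m k)),
  1 ≤ D → (∀ k, 2 ≤ m k) → ∀ (S : Set (E (D + 1))) (n : ℕ) (N : ℝ),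
  (Nat.card {p : Pre D m n // (cell f p ∩ S).Nonempty} : ℝ) ≤ N →
  Measure.hausdorffMeasure (D : ℝ) (Kset f ∩ S) ≤
    ENNReal.ofReal (N * (Real.sqrt (D + 1) / (q m n : ℝ)) ^ D)

/-- **COUNT** -/
def S_COUNT : Prop := ∀ (D : ℕ) (m : ℕ → ℕ) (f : (k : ℕ) → (Fin D → Fin (m k)) → Fin (m k))
  (L : ℕ → ℕ), 1 ≤ D → (∀ k, 2 ≤ m k) →
  (∀ (k : ℕ) (j : Fin (D + 1)) (α β : Fin (D + 1) → ℝ), (∀ i, |α i| ≤ 1) →
    cnt (f k) j α β ≤ L k) →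
  ∀ (n : ℕ) (j : Fin (D + 1)) (α β : Fin (D + 1) → ℝ) (w : ℝ), (∀ i, |α i| ≤ 1) → 0 ≤ w →
  (Nat.card {p : Pre D m n // (cell f p ∩ box j α β w).Nonempty} : ℝ) ≤
    (w * (q m n : ℝ) + 1) ^ D * ∏ k ∈ Finset.range n, (L k : ℝ)

/-- The exponents. -/
def bb (k : ℕ) : ℕ := 2 ^ 2 ^ k

/-- **FIN** -/
def S_FIN : Prop := ∀ A : ℕ, ∃ C : ℝ, 0 < C ∧ ∀ w : ℝ, 0 < w → w ≤ 1 →
  ∃ n : ℕ, 1 / (q (fun k => 2 ^ bb k) n : ℝ) ≤ w ∧
    ∏ k ∈ Finset.range n, ((A * (bb k + 1) : ℕ) : ℝ) ≤ C * (1 + Real.log (1 / w)) ^ 5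

/-- **GOAL** -/
def S_GOAL : Prop := ∀ d : ℕ, 2 ≤ d → ∃ K : Set (E d), IsCompact K ∧
  0 < Measure.hausdorffMeasure ((d : ℝ) - 1) K ∧ Measure.hausdorffMeasure ((d : ℝ) - 1) K < ⊤ ∧
  (∃ C : ℝ, ∀ (p v : E d) (w : ℝ), v ≠ 0 → 0 < w → w ≤ 1 →
    Measure.hausdorffMeasure ((d : ℝ) - 1) (K ∩ tube p v w) ≤
      ENNReal.ofReal (C * w ^ (d - 1) * (1 + Real.log (1 / w)) ^ 5)) ∧
  ∀ s : ℝ, s < d - 1 → ∃ C : ℝ, ∀ (p v : E d) (w : ℝ), v ≠ 0 → 0 < w → (0 ≤ s ∨ w ≤ 1) →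
    Measure.hausdorffMeasure ((d : ℝ) - 1) (K ∩ tube p v w) ≤ ENNReal.ofReal (C * w ^ s)

end Pool.Agent.N822.TO
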