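import Mathlib
import Pool.Agent.N822.TO.Stm

set_option autoImplicit false

/-!
# Tube occupancy: assembly (project TO, MP_e5cefd_an)
-/

namespace Pool.Agent.N822.TO

open MeasureTheory

theorem q_pos {m : ℕ → ℕ} (hm : ∀ k, 2 ≤ m k) (n : ℕ) : (0 : ℝ) < (q m n : ℝ) := by
  have : 0 < q m n := Finset.prod_pos fun k _ => by have := hm k; omega
  exact_mod_cast this

/-- The total measure is finite. -/
theorem total (hH : S_HAUS) (D : ℕ) (m : ℕ → ℕ) (f : (k : ℕ) → (Fin D → Fin (m k)) → Fin (m k))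
    (hD : 1 ≤ D) (hm : ∀ k, 2 ≤ m k) (S : Set (E (D + 1))) :
    Measure.hausdorffMeasure (D : ℝ) (Kset f ∩ S) ≤ ENNReal.ofReal (Real.sqrt (D + 1) ^ D) := by
  have h := hH D m f hD hm S 0 1 ?_
  · refine h.trans ?_
    simp [q]
  · have : Nat.card {p : Pre D m 0 // (cell f p ∩ S).Nonempty} ≤ Nat.card (Pre D m 0) :=
      Nat.card_le_card_of_injective Subtype.val Subtype.val_injective
    have h1 : Nat.card (Pre D m 0) = 1 := by
      rw [Nat.card_eq_fintype_card]
      simp [Pre]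
    rw [h1] at this
    exact_mod_cast this

/-- The polylogarithmic function beats powers. -/
theorem log_pow_le (ε : ℝ) (hε : 0 < ε) : ∃ C : ℝ, 0 < C ∧ ∀ w : ℝ, 0 < w → w ≤ 1 →
    (1 + Real.log (1 / w)) ^ 5 ≤ C * w ^ (-ε) := by
  refine ⟨(1 + 5 / ε) ^ 5, by positivity, fun w hw hw1 => ?_⟩
  have h1 : Real.log (1 / w) ≤ (1 / w) ^ (ε / 5) / (ε / 5) :=
    Real.log_le_rpow_div (by positivity) (by positivity)
  have h2 : 1 ≤ (1 / w) ^ (ε / 5) := Real.one_le_rpow ((one_le_div hw).2 hw1) (by positivity)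
  have h0 : 0 ≤ Real.log (1 / w) := Real.log_nonneg ((one_le_div hw).2 hw1)
  have h3 : 1 + Real.log (1 / w) ≤ (1 + 5 / ε) * (1 / w) ^ (ε / 5) := by
    have : (1 / w) ^ (ε / 5) / (ε / 5) = 5 / ε * (1 / w) ^ (ε / 5) := by
      field_simp
    rw [this] at h1
    nlinarith
  calc (1 + Real.log (1 / w)) ^ 5 ≤ ((1 + 5 / ε) * (1 / w) ^ (ε / 5)) ^ 5 :=
        pow_le_pow_left₀ (by positivity) h3 5
    _ = (1 + 5 / ε) ^ 5 * w ^ (-ε) := by
        rw [mul_pow, ← Real.rpow_natCast ((1 / w) ^ (ε / 5)), ← Real.rpow_mul (by positivity),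
          one_div, Real.inv_rpow hw.le, ← Real.rpow_neg hw.le]
        congr 2
        push_cast
        ring

theorem goal (hBOX : S_BOX) (hFL : S_FL) (hPOS : S_POS) (hHAUS : S_HAUS) (hCOUNT : S_COUNT)
    (hFIN : S_FIN) : S_GOAL := by
  intro d hd
  obtain ⟨D, rfl⟩ : ∃ D, d = D + 1 := ⟨d - 1, by omega⟩
  have hD : 1 ≤ D := by omega
  obtain ⟨A, hA⟩ := hFL D hD
  choose g hg using fun b => hA b
  set m : ℕ → ℕ := fun k => 2 ^ bb k with hm_def
  have hm : ∀ k, 2 ≤ m k := by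
    intro k
    have : 1 ≤ bb k := Nat.one_le_two_pow
    calc 2 = 2 ^ 1 := by norm_num
      _ ≤ 2 ^ bb k := Nat.pow_le_pow_right (by norm_num) this
  set f : (k : ℕ) → (Fin D → Fin (m k)) → Fin (m k) := fun k => g (bb k) with hf_def
  obtain ⟨hc, hpos⟩ := hPOS D m f hD hm
  obtain ⟨C, hC, hCw⟩ := hFIN A
  have hcast : (((D + 1 : ℕ) : ℝ) - 1) = (D : ℝ) := by push_cast; ring
  have hs : (0 : ℝ) ≤ Real.sqrt (D + 1) := Real.sqrt_nonneg _
  have hs1 : (1 : ℝ) ≤ Real.sqrt (D + 1) := by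
    rw [Real.one_le_sqrt]
    have : (0 : ℝ) ≤ D := Nat.cast_nonneg D
    linarith
  -- the main bound
  have hmain : ∀ (p v : E (D + 1)) (w : ℝ), v ≠ 0 → 0 < w → w ≤ 1 →
      Measure.hausdorffMeasure (D : ℝ) (Kset f ∩ tube p v w) ≤
        ENNReal.ofReal (2 ^ D * Real.sqrt (D + 1) ^ D * C * w ^ D *
          (1 + Real.log (1 / w)) ^ 5) := by
    intro p v w hv hw hw1
    obtain ⟨j, α, β, hα, hsub⟩ := hBOX (D + 1) p v w hv
    obtain ⟨n, hn, hprod⟩ := hCw w hw hw1
    have h1 := hCOUNT D m f (fun k => A * (bb k + 1)) hD hm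
      (fun k j α β hα => hg (bb k) j α β hα) n j α β w hα hw.le
    have h2 := hHAUS D m f hD hm (box j α β w) n _ h1
    have h3 : Measure.hausdorffMeasure (D : ℝ) (Kset f ∩ tube p v w) ≤
        Measure.hausdorffMeasure (D : ℝ) (Kset f ∩ box j α β w) :=
      measure_mono (Set.inter_subset_inter_right _ hsub)
    refine h3.trans (h2.trans (ENNReal.ofReal_le_ofReal ?_))
    have hq := q_pos hm n
    have h4 : w * (q m n : ℝ) + 1 ≤ 2 * w * q m n := by
      have : 1 ≤ w * (q m n : ℝ) := by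
        rwa [div_le_iff₀ hq] at hn
      linarith
    have hP0 : 0 ≤ ∏ k ∈ Finset.range n, ((A * (bb k + 1) : ℕ) : ℝ) :=
      Finset.prod_nonneg fun k _ => Nat.cast_nonneg _
    calc (w * (q m n : ℝ) + 1) ^ D * (∏ k ∈ Finset.range n, ((A * (bb k + 1) : ℕ) : ℝ)) *
          (Real.sqrt (D + 1) / (q m n : ℝ)) ^ D
        ≤ (2 * w * q m n) ^ D * (C * (1 + Real.log (1 / w)) ^ 5) *
          (Real.sqrt (D + 1) / (q m n : ℝ)) ^ D := by
          have h5 : (w * (q m n : ℝ) + 1) ^ D ≤ (2 * w * q m n) ^ D :=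
            pow_le_pow_left₀ (by positivity) h4 D
          have h6 : 0 ≤ (Real.sqrt (D + 1) / (q m n : ℝ)) ^ D := by positivity
          refine mul_le_mul_of_nonneg_right ?_ h6
          exact mul_le_mul h5 hprod hP0 (by positivity)
      _ = 2 ^ D * Real.sqrt (D + 1) ^ D * C * w ^ D * (1 + Real.log (1 / w)) ^ 5 := by
          rw [mul_pow, mul_pow, div_pow]
          field_simp
  refine ⟨Kset f, hc, ?_, ?_, ⟨2 ^ D * Real.sqrt (D + 1) ^ D * C, ?_⟩, ?_⟩
  · rw [hcast]; exact hpos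
  · rw [hcast]
    have := total hHAUS D m f hD hm Set.univ
    rw [Set.inter_univ] at this
    exact this.trans_lt ENNReal.ofReal_lt_top
  · intro p v w hv hw hw1
    rw [hcast]
    have := hmain p v w hv hw hw1
    simpa using this
  · intro s hs'
    have hs2 : s < (D : ℝ) := by
      have : ((D + 1 : ℕ) : ℝ) - 1 = (D : ℝ) := hcast
      linarith
    obtain ⟨C', hC', hlog⟩ := log_pow_le ((D : ℝ) - s) (by linarith)
    refine ⟨2 ^ D * Real.sqrt (D + 1) ^ D * (C * C' + 1), fun p v w hv hw hcase => ?_⟩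
    rw [hcast]
    rcases le_or_gt w 1 with hw1 | hw1
    · refine (hmain p v w hv hw hw1).trans (ENNReal.ofReal_le_ofReal ?_)
      have h1 := hlog w hw hw1
      have h2 : w ^ D * w ^ (-((D : ℝ) - s)) = w ^ s := by
        rw [← Real.rpow_natCast w D, ← Real.rpow_add hw]
        congr 1
        ring
      have h3 : (0 : ℝ) ≤ 2 ^ D * Real.sqrt (D + 1) ^ D := by positivity
      calc 2 ^ D * Real.sqrt (D + 1) ^ D * C * w ^ D * (1 + Real.log (1 / w)) ^ 5
          ≤ 2 ^ D * Real.sqrt (D + 1) ^ D * C * w ^ D * (C' * w ^ (-((D : ℝ) - s))) :=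
            mul_le_mul_of_nonneg_left h1 (by positivity)
        _ = 2 ^ D * Real.sqrt (D + 1) ^ D * (C * C') * (w ^ D * w ^ (-((D : ℝ) - s))) := by ring
        _ = 2 ^ D * Real.sqrt (D + 1) ^ D * (C * C') * w ^ s := by rw [h2]
        _ ≤ 2 ^ D * Real.sqrt (D + 1) ^ D * (C * C' + 1) * w ^ s := by
            refine mul_le_mul_of_nonneg_right ?_ (Real.rpow_nonneg hw.le s)
            exact mul_le_mul_of_nonneg_left (by linarith) h3
    · have hs0 : 0 ≤ s := by
        rcases hcase with h | h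
        · exact h
        · exact absurd h (not_le.2 hw1)
      refine (total hHAUS D m f hD hm _).trans (ENNReal.ofReal_le_ofReal ?_)
      have h1 : 1 ≤ w ^ s := Real.one_le_rpow hw1.le hs0
      have h2 : (1 : ℝ) ≤ 2 ^ D := one_le_pow₀ (by norm_num)
      have h3 : (1 : ℝ) ≤ C * C' + 1 := by
        have : 0 < C * C' := mul_pos hC hC'
        linarith
      have h4 : (0 : ℝ) ≤ Real.sqrt (D + 1) ^ D := by positivity
      calc Real.sqrt (D + 1) ^ D = 1 * Real.sqrt (D + 1) ^ D * 1 * 1 := by ring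
        _ ≤ 2 ^ D * Real.sqrt (D + 1) ^ D * (C * C' + 1) * w ^ s := by
            gcongr

end Pool.Agent.N822.TO
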